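import Pool.Agent.Q41.GT.Stm3

/-!
# Project GT: `S_gtf`
-/

set_option autoImplicit false

namespace Pool.Agent.Q92.GT

open Finset FF
open Pool.Agent.W602.GT
open Pool.Agent.W603.LV (Ge)
open Pool.Agent.Q41.SU
open Pool.Agent.Q41.GT

section

variable {k K : Type} [Field k] [Field K] [Algebra k K]

/-- poles of derivatives -/
theorem ge_der {v : Place k K} {D : Derivation k K K} (hD : DerReg v D) {f : K} {m : ℕ}
    (hf : Ge v (-(m : ℤ)) f) : Ge v (-(m : ℤ) - 1) (D f) := by
  obtain ⟨π, hπ0, hπ⟩ := v.surj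
  have h1 : Ge v 0 (f * π ^ m) := by
    have := hf.mul ((Pool.Agent.W602.GT.ge_ord v π).pow m)
    rw [hπ] at this
    exact this.mono (by omega)
  have h2 : Ge v 0 (D (f * π ^ m)) := hD _ h1
  have h3 : Ge v 0 (D π) := hD π (Or.inr (by rw [hπ]; norm_num))
  cases m with
  | zero =>
    rw [pow_zero, mul_one] at h2
    exact h2.mono (by omega)
  | succ m =>
    have e : D f * π ^ (m + 1) = D (f * π ^ (m + 1)) - f * (((m + 1 : ℕ) : K) * π ^ m * D π) := by
      rw [D.leibniz, D.leibniz_pow]
      simp only [smul_eq_mul, nsmul_eq_mul, Nat.add_sub_cancel]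
      ring
    have h4 : Ge v (-1) (f * (((m + 1 : ℕ) : K) * π ^ m * D π)) := by
      have h5 := hf.mul (((Ge.natCast (P := v) (m + 1)).mul
        ((Pool.Agent.W602.GT.ge_ord v π).pow m)).mul h3)
      rw [hπ] at h5
      refine h5.mono ?_
      push_cast
      omega
    have h5 : Ge v (-1) (D f * π ^ (m + 1)) := by
      rw [e]
      exact (h2.mono (by norm_num)).sub h4
    refine Ge.of_mul' (h := π ^ (m + 1)) (m := ((m + 1 : ℕ) : ℤ)) (pow_ne_zero _ hπ0) ?_ ?_
    · rw [v.ord_pow, hπ, mul_one]
    · rw [mul_comm]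
      refine h5.mono ?_
      omega

/-- a family with nonzero determinant -/
theorem exists_fam {w n : ℕ} (G : Set (MvPolynomial (Fin w) K))
    (hG : ∀ f : MvPolynomial (Fin w) K, f.IsHomogeneous n → f ∈ Submodule.span K G) :
    ∃ U : Mon w n → MvPolynomial (Fin w) K, (∀ u, U u ∈ G) ∧ (cmat U).det ≠ 0 := by
  classical
  let cf : MvPolynomial (Fin w) K →ₗ[K] (Mon w n → K) :=
    { toFun := fun f γ => f.coeff γ.1
      map_add' := fun f g => by
        funext γ
        exact MvPolynomial.coeff_add _ _ _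
      map_smul' := fun c f => by
        funext γ
        exact MvPolynomial.coeff_smul _ _ _ }
  have hspan : Submodule.span K (cf '' G) = ⊤ := by
    rw [← Submodule.map_span, eq_top_iff]
    intro y _
    refine ⟨∑ γ : Mon w n, MvPolynomial.monomial γ.1 (y γ), ?_, ?_⟩
    · apply hG
      refine MvPolynomial.IsHomogeneous.sum _ _ _ fun γ _ => ?_
      apply MvPolynomial.isHomogeneous_monomial
      rw [Finsupp.degree_eq_sum]
      exact (Finset.mem_finsuppAntidiag.1 γ.2).1
    · funext γ
      show MvPolynomial.coeff γ.1 (∑ γ' : Mon w n, MvPolynomial.monomial γ'.1 (y γ')) = y γ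
      rw [MvPolynomial.coeff_sum, Finset.sum_eq_single γ]
      · rw [MvPolynomial.coeff_monomial, if_pos rfl]
      · intro γ' _ hne
        rw [MvPolynomial.coeff_monomial, if_neg]
        exact fun h => hne (Subtype.ext h)
      · intro h
        exact absurd (Finset.mem_univ _) h
  obtain ⟨b, hb, hbs, hbl⟩ := exists_linearIndependent K (cf '' G)
  let Bs : Module.Basis b K (Mon w n → K) := Module.Basis.mk hbl (by
    rw [Subtype.range_coe, hbs, hspan])
  have : Finite b := Module.Finite.finite_basis Bs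
  have : Fintype b := Fintype.ofFinite b
  have hcard : Fintype.card (Mon w n) = Fintype.card b := by
    rw [← Module.finrank_eq_card_basis Bs, Module.finrank_fintype_fun_eq_card]
  obtain ⟨e⟩ : Nonempty (Mon w n ≃ b) := Fintype.card_eq.1 hcard
  choose U hU hU' using fun u : Mon w n => hb (e u).2
  refine ⟨U, hU, ?_⟩
  have hli : LinearIndependent K (cmat U).row := by
    have h1 : (cmat U).row = fun u => ((e u : b) : Mon w n → K) := by
      funext u γ
      exact congrFun (hU' u) γ
    rw [h1]
    exact hbl.comp e e.injective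
  rw [Matrix.linearIndependent_rows_iff_isUnit, Matrix.isUnit_iff_isUnit_det] at hli
  exact hli.ne_zero

theorem der_sum {w : ℕ} (c : Fin w → K) (D : Fin w → Derivation k K K) (x : K) :
    (∑ i, c i • D i) x = ∑ i, c i * D i x := by
  classical
  have h0 : ∀ (s : Finset (Fin w)), (∑ i ∈ s, c i • D i) x = ∑ i ∈ s, c i * D i x := by
    intro s
    induction s using Finset.induction_on with
    | empty => simp
    | insert i s hi ih =>
      rw [Finset.sum_insert hi, Finset.sum_insert hi, Derivation.add_apply, ih]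
      rfl
  exact h0 _

end

theorem t_K4 (hN : S_nul) (hS : S_sym) (hC : S_cof) : S_gtf := by
  classical
  intro k K _ _ _ _ w hw htr ι _ F C C' R H hC1 halg hH hF hQ
  have : Infinite k := CharZero.infinite k
  -- the transcendence basis
  have halg' := alg_adjoin halg
  obtain ⟨B, hB, hBb⟩ := exists_isTranscendenceBasis_subset (R := k) (A := K) (H : Set K)
  have hcard := hBb.cardinalMk_eq_trdeg
  rw [htr] at hcard
  obtain ⟨φ⟩ : Nonempty (Fin w ≃ B) := by
    rw [← Cardinal.eq, Cardinal.mk_fin]
    exact hcard.symm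
  set t : Fin w → K := fun i => (φ i : K) with ht
  have htb : IsTranscendenceBasis k t := hBb.comp_equiv φ
  have htH : ∀ i, t i ∈ H := fun i => hB (φ i).2
  obtain ⟨Q, hQh, hQF, hQz⟩ := hQ t htb
  obtain ⟨M₀, hM₀⟩ := hN K w C hC1 ι Q hQh hQz
  obtain ⟨j, hj⟩ : ∃ j, j = M₀ * (C' + 1) + 1 := ⟨_, rfl⟩
  obtain ⟨n, hn⟩ : ∃ n, n = M₀ + j * C := ⟨_, rfl⟩
  have hn1 : 1 ≤ n := by
    have h1 : 1 ≤ j := by omega
    have h2 : 1 * 1 ≤ j * C := Nat.mul_le_mul h1 hC1
    omega
  obtain ⟨N', hN', hdet⟩ := hS w n hw hn1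
  obtain ⟨U, hUG, hUdet⟩ := exists_fam (n := n)
    {g | ∃ (i : Fin j → ι) (γ : Fin w →₀ ℕ), (∑ s, γ s) = M₀ ∧
      g = (∏ s, Q (i s)) * MvPolynomial.monomial γ 1} (fun f hf => hM₀ j f (by rw [← hn]; exact hf))
  have hUhom : ∀ u, (U u).IsHomogeneous n := by
    intro u
    obtain ⟨i, γ, hγ, hg⟩ := hUG u
    rw [hg]
    have h1 : (∏ s, Q (i s)).IsHomogeneous (∑ _s : Fin j, C) :=
      MvPolynomial.IsHomogeneous.prod _ _ _ fun s _ => hQh (i s)
    have h2 : (MvPolynomial.monomial γ (1 : K)).IsHomogeneous M₀ := by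
      apply MvPolynomial.isHomogeneous_monomial
      rw [Finsupp.degree_eq_sum]
      exact hγ
    have h3 := h1.mul h2
    rw [Finset.sum_const, Finset.card_univ, Fintype.card_fin, smul_eq_mul, add_comm, ← hn] at h3
    exact h3
  -- values
  have hval : ∀ (v : Place k K) (D : Derivation k K K), DerReg v D → ∀ u,
      Ge v (R v) (MvPolynomial.eval (fun l => D (t l)) (U u)) := by
    intro v D hD u
    obtain ⟨i, γ, hγ, hg⟩ := hUG u
    rw [hg, map_mul, map_prod, MvPolynomial.eval_monomial, one_mul,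
      Finsupp.prod_fintype γ _ (fun _ => pow_zero _)]
    have h1 : Ge v ((j : ℤ) * R v) (∏ s, MvPolynomial.eval (fun l => D (t l)) (Q (i s))) := by
      have h2 := Ge.prod (P := v) univ (fun s => MvPolynomial.eval (fun l => D (t l)) (Q (i s)))
        (fun _ => (R v : ℤ)) (fun s _ => by rw [← hQF]; exact hF v D hD (i s))
      rw [Finset.sum_const, Finset.card_univ, Fintype.card_fin, nsmul_eq_mul] at h2
      exact h2
    by_cases hR : R v = 0
    · have h3 : Ge v 0 (∏ l, D (t l) ^ γ l) := by
        have h4 := Ge.prod (P := v) univ (fun l => D (t l) ^ γ l) (fun _ => 0) (fun l _ => by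
          have h5 := hH v (t l) (htH l)
          rw [hR, Nat.cast_zero, mul_zero, neg_zero] at h5
          have h6 : Ge v 0 (D (t l)) := hD _ h5
          have h7 := h6.pow (γ l)
          rwa [mul_zero] at h7)
        rwa [Finset.sum_const_zero] at h4
      have h4 := h1.mul h3
      rw [hR] at h4 ⊢
      simpa using h4
    · have hR1 : 1 ≤ R v := Nat.one_le_iff_ne_zero.2 hR
      have h3 : Ge v (-(M₀ : ℤ) * (C' * R v + 1)) (∏ l, D (t l) ^ γ l) := by
        have h4 := Ge.prod (P := v) univ (fun l => D (t l) ^ γ l)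
          (fun l => (γ l : ℤ) * (-(C' * R v : ℕ) - 1)) (fun l _ => by
          have h5 := hH v (t l) (htH l)
          have h6 : Ge v (-((C' * R v : ℕ) : ℤ)) (t l) := by
            push_cast
            exact h5
          exact (ge_der hD h6).pow (γ l))
        rw [← Finset.sum_mul] at h4
        have h5 : (∑ l, (γ l : ℤ)) = M₀ := by exact_mod_cast hγ
        rw [h5] at h4
        have e : (M₀ : ℤ) * (-((C' * R v : ℕ) : ℤ) - 1) = -(M₀ : ℤ) * (C' * R v + 1) := by
          push_cast
          ring
        rwa [e] at h4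
      refine (h1.mul h3).mono ?_
      rw [hj]
      push_cast
      have h5 : (0 : ℤ) ≤ (M₀ : ℤ) * ((R v : ℤ) - 1) :=
        mul_nonneg (Int.natCast_nonneg _) (by omega)
      nlinarith
  -- coefficients
  have hcoef : ∀ (v : Place k K) (D : Fin w → Derivation k K K), (∀ i, DerReg v (D i)) →
      ∀ u γ, Ge v (R v) ((lsub (Matrix.of fun i j => D i (t j)) (U u)).coeff γ) := by
    intro v D hD u γ
    refine hC k K v w _ _ (fun c => ?_) γ
    have e : MvPolynomial.eval (fun i => algebraMap k K (c i))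
        (lsub (Matrix.of fun i j => D i (t j)) (U u)) =
        MvPolynomial.eval (fun l => (∑ i, algebraMap k K (c i) • D i) (t l)) (U u) := by
      unfold lsub
      show MvPolynomial.eval₂Hom (RingHom.id K) _ (MvPolynomial.bind₁ _ _) = _
      rw [MvPolynomial.eval₂Hom_bind₁]
      show MvPolynomial.eval _ (U u) = _
      congr 2
      funext l
      rw [der_sum]
      show MvPolynomial.eval _ _ = _
      rw [map_sum]
      refine Finset.sum_congr rfl fun i _ => ?_
      rw [map_mul, MvPolynomial.eval_C, MvPolynomial.eval_X, Matrix.of_apply, mul_comm]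
    rw [e]
    apply hval
    intro f hf
    show Ge v 0 _
    rw [der_sum]
    refine Ge.sum _ _ fun i _ => ?_
    have h1 := (Ge.const (P := v) (c i)).mul (hD i f hf)
    rwa [add_zero] at h1
  have hne : Nonempty (Mon w n) := by
    refine ⟨⟨Finsupp.single ⟨0, hw⟩ n, ?_⟩⟩
    rw [Finset.mem_finsuppAntidiag]
    refine ⟨?_, Finset.subset_univ _⟩
    rw [← Finsupp.degree_eq_sum, Finsupp.degree_single]
  have hth : ∀ (v : Place k K) (D : Fin w → Derivation k K K), (∀ i, DerReg v (D i)) →
      Ge v (R v) ((Matrix.of fun i j => D i (t j)).det ^ N' * (cmat U).det) := by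
    intro v D hD
    rw [← hdet K _ U hUhom, Matrix.det_apply']
    refine Ge.sum _ _ fun σ _ => ?_
    have h1 := Ge.prod (P := v) univ (fun i => (cmat fun u =>
      lsub (Matrix.of fun i j => D i (t j)) (U u)) (σ i) i) (fun _ => (R v : ℤ))
      (fun i _ => hcoef v D hD (σ i) i.1)
    have h2 := (Ge.intCast (P := v) ((Equiv.Perm.sign σ : ℤˣ) : ℤ)).mul h1
    refine h2.mono ?_
    rw [Finset.sum_const, Finset.card_univ, nsmul_eq_mul, zero_add]
    have h3 : 1 ≤ Fintype.card (Mon w n) := Fintype.card_pos_iff.2 hne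
    have h4 : (1 : ℤ) ≤ Fintype.card (Mon w n) := by exact_mod_cast h3
    nlinarith [Int.natCast_nonneg (R v)]
  refine ⟨htr, N' * (C' + 1), Nat.mul_pos hN' (Nat.succ_pos _),
    fun j => form t (N' * (C' + 1)) (Fin.cases ((cmat U).det ^ (C' + 1))
      (fun l => t l * (cmat U).det ^ (C' + 1)) j), fun j => form_pluri _ _ _, ?_, ?_⟩
  · intro P _ j D hD
    have h1 := (hth P D hD).pow (C' + 1)
    refine Fin.cases ?_ (fun l => ?_) j
    · show Ge P 0 (form t (N' * (C' + 1)) ((cmat U).det ^ (C' + 1)) D)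
      unfold form
      have e : (cmat U).det ^ (C' + 1) * (Matrix.of fun i j => D i (t j)).det ^ (N' * (C' + 1)) =
          ((Matrix.of fun i j => D i (t j)).det ^ N' * (cmat U).det) ^ (C' + 1) := by
        rw [mul_pow, ← pow_mul, mul_comm]
      rw [e]
      refine h1.mono ?_
      positivity
    · show Ge P 0 (form t (N' * (C' + 1)) (t l * (cmat U).det ^ (C' + 1)) D)
      unfold form
      have e : t l * (cmat U).det ^ (C' + 1) *
          (Matrix.of fun i j => D i (t j)).det ^ (N' * (C' + 1)) =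
          t l * ((Matrix.of fun i j => D i (t j)).det ^ N' * (cmat U).det) ^ (C' + 1) := by
        rw [mul_pow, ← pow_mul]
        ring
      rw [e]
      refine ((hH P (t l) (htH l)).mul h1).mono ?_
      push_cast
      nlinarith [Int.natCast_nonneg (R P)]
  · obtain ⟨D, hD⟩ := exists_dual htb
    have hf : ∀ g, form t (N' * (C' + 1)) g D = g := fun g => by
      unfold form
      rw [hD, Matrix.det_one, one_pow, mul_one]
    have h0 : (cmat U).det ^ (C' + 1) ≠ 0 := pow_ne_zero _ hUdet
    refine ⟨D, ?_, ?_⟩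
    · show form t (N' * (C' + 1)) ((cmat U).det ^ (C' + 1)) D ≠ 0
      rw [hf]
      exact h0
    · have e : (fun i : Fin w => form t (N' * (C' + 1)) (Fin.cases ((cmat U).det ^ (C' + 1))
          (fun l => t l * (cmat U).det ^ (C' + 1)) i.succ : K) D /
          form t (N' * (C' + 1)) ((cmat U).det ^ (C' + 1)) D) = t := by
        funext l
        rw [hf, hf]
        show t l * (cmat U).det ^ (C' + 1) / (cmat U).det ^ (C' + 1) = t l
        rw [mul_div_cancel_right₀ _ h0]
      show AlgebraicIndependent k (fun i : Fin w => form t (N' * (C' + 1))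
        (Fin.cases ((cmat U).det ^ (C' + 1)) (fun l => t l * (cmat U).det ^ (C' + 1)) i.succ : K)
          D / form t (N' * (C' + 1)) ((cmat U).det ^ (C' + 1)) D)
      rw [e]
      exact htb.1

end Pool.Agent.Q92.GT
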