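import Pool.Agent.Q41.GT.Stm2
import Pool.Agent.Q92.GT.K4
import Pool.Agent.W277.UH.G1

/-!
# Project GT: `S_data`
-/

set_option autoImplicit false

namespace Pool.Agent.Q92.GT

open Finset Polynomial FF
open Pool.Agent.W602.GT
open Pool.Agent.W603.LV (Ge)
open Pool.Agent.Q41.SU
open Pool.Agent.Q41.GT

section

variable {k K : Type} [Field k] [Field K] [Algebra k K]

theorem alg_mono {F₁ F₂ : IntermediateField k K} (hle : F₁ ≤ F₂) (h : Algebra.IsAlgebraic F₁ K) :
    Algebra.IsAlgebraic F₂ K := by
  let _ : Algebra F₁ F₂ := (IntermediateField.inclusion hle).toRingHom.toAlgebra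
  have : IsScalarTower F₁ F₂ K := IsScalarTower.of_algebraMap_eq fun x => rfl
  exact Algebra.IsAlgebraic.extendScalars (R := F₁)
    (IntermediateField.inclusion hle).toRingHom.injective

/-- expansion of a derivation in terms of the dual derivations -/
theorem der_expand [CharZero k] {w : ℕ} {t : Fin w → K} (ht : IsTranscendenceBasis k t)
    {δ : Fin w → Derivation k K K} (hδ : (Matrix.of fun i j => δ i (t j)) = 1)
    {E : Type} [Field E] [Algebra K E] [Algebra k E] [IsScalarTower k K E]
    (D : Derivation k E E) (x : K) :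
    D (algebraMap K E x) = ∑ j, D (algebraMap K E (t j)) * algebraMap K E (δ j x) := by
  have h0 : D (algebraMap K E x) - ∑ j, δ j x • D (algebraMap K E (t j)) = 0 := by
    rw [← Module.forall_dual_apply_eq_zero_iff K]
    intro μ
    rw [map_sub, map_sum, sub_eq_zero]
    have h1 : μ.compDer (Derivation.compAlgebraMap K D) =
        ∑ j, μ (D (algebraMap K E (t j))) • δ j := by
      refine der_ext t ht fun i => ?_
      rw [der_sum]
      show μ (D (algebraMap K E (t i))) = _
      rw [Finset.sum_eq_single i]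
      · have h2 := congrFun (congrFun hδ i) i
        rw [Matrix.of_apply, Matrix.one_apply_eq] at h2
        rw [h2, mul_one]
      · intro j _ hj
        have h2 := congrFun (congrFun hδ j) i
        rw [Matrix.of_apply, Matrix.one_apply_ne hj] at h2
        rw [h2, mul_zero]
      · intro h
        exact absurd (Finset.mem_univ _) h
    have h2 : (μ.compDer (Derivation.compAlgebraMap K D)) x =
        (∑ j, μ (D (algebraMap K E (t j))) • δ j) x := by rw [h1]
    rw [der_sum] at h2
    show (μ.compDer (Derivation.compAlgebraMap K D)) x = _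
    rw [h2]
    refine Finset.sum_congr rfl fun j _ => ?_
    rw [map_smul, smul_eq_mul, mul_comm]
  rw [sub_eq_zero.1 h0]
  refine Finset.sum_congr rfl fun j _ => ?_
  rw [Algebra.smul_def, mul_comm]

theorem map_wro {A B : Type*} [CommRing A] [CommRing B] (f : A →+* B) {a b : ℕ}
    (φ : II a b → ℕ × ℕ) (x y : II a b → A) :
    f (wro φ x y) = wro φ (fun l => f (x l)) (fun l => f (y l)) := by
  unfold wro
  rw [RingHom.map_det]
  congr 1
  ext l c
  simp [RingHom.mapMatrix_apply, Matrix.map_apply]

/-- the Wronskian as a form in the values of a derivation -/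
theorem wro_hom {w a b : ℕ} (φ : II a b → ℕ × ℕ) (x : II a b → K)
    (y : II a b → MvPolynomial (Fin w) K) (hy : ∀ l, (y l).IsHomogeneous 1) :
    (wro φ (fun l => MvPolynomial.C (x l)) y).IsHomogeneous (cst φ) := by
  unfold wro cst
  rw [Matrix.det_apply']
  refine MvPolynomial.IsHomogeneous.sum _ _ _ fun σ _ => ?_
  have h1 : (((Equiv.Perm.sign σ : ℤˣ) : ℤ) : MvPolynomial (Fin w) K).IsHomogeneous 0 := by
    have := MvPolynomial.isHomogeneous_C (Fin w) (((Equiv.Perm.sign σ : ℤˣ) : ℤ) : K)
    rwa [map_intCast] at this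
  have h2 : (∏ c, (Matrix.of fun l c : II a b => (MvPolynomial.C (x l) :
      MvPolynomial (Fin w) K) ^ (φ c).1 * y l ^ (φ c).2) (σ c) c).IsHomogeneous
      (∑ c, (φ c).2) := by
    refine MvPolynomial.IsHomogeneous.prod _ _ _ fun c _ => ?_
    rw [Matrix.of_apply]
    have h3 := ((MvPolynomial.isHomogeneous_C (Fin w) (x (σ c))).pow (φ c).1).mul
      ((hy (σ c)).pow (φ c).2)
    rwa [zero_mul, one_mul, zero_add] at h3
  have h3 := h1.mul h2
  rwa [zero_add] at h3

theorem crs_finite (P : Finset K) : (crs P).Finite := by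
  classical
  refine ((Finset.finite_toSet (P ×ˢ P ×ˢ P ×ˢ P)).image (fun z : K × K × K × K =>
    ((z.2.2.2 - z.1) * (z.2.1 - z.2.2.1)) / ((z.2.2.2 - z.2.2.1) * (z.2.1 - z.1)))).subset ?_
  rintro c ⟨x0, h0, x1, h1, x2, h2, x, hx, -, -, -, -, -, rfl⟩
  refine ⟨(x0, x1, x2, x), ?_, rfl⟩
  simp only [Finset.coe_product, Set.mem_prod, Finset.mem_coe]
  exact ⟨h0, h1, h2, hx⟩

end

theorem t_H7 (hO : S_ords) (hN : S_ndw) (hC : S_crs) (hR : S_red.{0}) : S_data := by
  classical
  intro d hd
  obtain ⟨a, b, φ, hb, hba, ha2, hφ, hcst, hO⟩ := hO d hd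
  obtain ⟨N₀, hN₀⟩ := hN d a b φ hd hφ
  obtain ⟨N'', hN''⟩ := hR d (max N₀ (3 * d + 4)) (by omega)
  refine ⟨N'', ?_⟩
  intro k K _ _ _ _ p q hp hq hpq P hP hcard halg
  obtain ⟨P', hP'P, hP', hcard', hsur⟩ := hN'' K p q hp hq hpq P hP hcard
  have halg' := hC k K d p q hd hp hq hpq P P' hP'P hP hP'
    ((le_max_right _ _).trans hcard') halg
  obtain ⟨E₀, C', hE₀, hO⟩ := hO P'.card
  obtain ⟨α, R, hα, hPhi, 𝒢, h𝒢, hGe⟩ := hO k K p q hp hq hpq P' hP' rfl
  set e1 := 2 * ((a + 1) * (b + 1) - 1) * b * (E₀ * (d * (d - 1))) with he1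
  have he1pos : 1 ≤ e1 := by
    have h1 : 1 ≤ (a + 1) * (b + 1) - 1 := by
      have : 2 * 2 ≤ (a + 1) * (b + 1) := Nat.mul_le_mul (by omega) (by omega)
      omega
    have h2 : 1 ≤ d * (d - 1) := by
      have : 1 * 1 ≤ d * (d - 1) := Nat.mul_le_mul (by omega) (by omega)
      omega
    rw [he1]
    exact Nat.mul_pos (Nat.mul_pos (Nat.mul_pos two_pos h1) hb) (Nat.mul_pos hE₀ h2)
  let HS : Set K := insert 𝒢 ((fun c => c * 𝒢) '' crs P')
  have hHS : HS.Finite := ((crs_finite P').image _).insert _
  have hle : IntermediateField.adjoin k (crs P') ≤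
      IntermediateField.adjoin k ((hHS.toFinset : Finset K) : Set K) := by
    rw [IntermediateField.adjoin_le_iff]
    intro c hc
    rw [Set.Finite.coe_toFinset]
    have h1 : 𝒢 ∈ IntermediateField.adjoin k HS :=
      IntermediateField.subset_adjoin _ _ (Set.mem_insert _ _)
    have h2 : c * 𝒢 ∈ IntermediateField.adjoin k HS :=
      IntermediateField.subset_adjoin _ _ (Set.mem_insert_of_mem _ ⟨c, hc, rfl⟩)
    have h3 := div_mem h2 h1
    rw [mul_div_cancel_right₀ _ h𝒢] at h3
    exact h3
  let ι : Type := {x : II a b → P' // Function.Injective x}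
  refine ⟨ι, Fintype.ofFinite _, fun x D => Phi φ E₀ d α p q (fun l => ((x.1 l : P') : K)) D,
    e1 * cst φ, C', R, hHS.toFinset, ?_, alg_mono hle halg', ?_, ?_, ?_⟩
  · exact Nat.mul_pos he1pos hcst
  · intro v h hh
    rw [Set.Finite.mem_toFinset] at hh
    rcases hh with rfl | ⟨c, hc, rfl⟩
    · exact (hGe v).1
    · exact (hGe v).2 c hc
  · intro v D hD x
    refine hPhi v D hD _ ?_ fun l => (x.1 l).2
    intro l m h
    exact x.2 (Subtype.ext h)
  · intro w t ht
    obtain ⟨δ, hδ⟩ := exists_dual ht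
    let Y : ι → II a b → MvPolynomial (Fin w) K := fun x l =>
      ∑ j, MvPolynomial.C (δ j ((x.1 l : P') : K)) * MvPolynomial.X j
    let cc : ι → K := fun x => pprod (gfn E₀ d α p q) (fun l => ((x.1 l : P') : K)) ^
      (4 * ((a + 1) * (b + 1) - 1)) / pprod (fun z z' => z - z') (fun l => ((x.1 l : P') : K)) ^
        ((a + b) * b * (E₀ * (d * (d - 1))))
    refine ⟨fun x => wro φ (fun l => MvPolynomial.C ((x.1 l : P') : K)) (Y x) ^ e1 *
      MvPolynomial.C (cc x), fun x => ?_, fun x D => ?_, fun lam hlam => ?_⟩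
    · have h1 := wro_hom φ (fun l => ((x.1 l : P') : K)) (Y x) (fun l => by
        refine MvPolynomial.IsHomogeneous.sum _ _ _ fun j _ => ?_
        have h3 := (MvPolynomial.isHomogeneous_C (Fin w) (δ j ((x.1 l : P') : K))).mul
          (MvPolynomial.isHomogeneous_X K j)
        rwa [zero_add] at h3)
      have h2 := (h1.pow e1).mul (MvPolynomial.isHomogeneous_C (Fin w) (cc x))
      rw [add_zero, mul_comm (cst φ)] at h2
      exact h2
    · rw [map_mul, map_pow, MvPolynomial.eval_C, map_wro]
      have h1 : (fun l => MvPolynomial.eval (fun j => D (t j))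
          (MvPolynomial.C (σ := Fin w) ((x.1 l : P') : K))) = fun l => ((x.1 l : P') : K) := by
        funext l
        rw [MvPolynomial.eval_C]
      have h2 : (fun l => MvPolynomial.eval (fun j => D (t j)) (Y x l)) =
          fun l => D ((x.1 l : P') : K) := by
        funext l
        have h3 := der_expand ht hδ D ((x.1 l : P') : K)
        simp only [Algebra.algebraMap_self, RingHom.id_apply] at h3
        rw [h3]
        show MvPolynomial.eval _ (∑ j, _) = _
        rw [map_sum]
        refine Finset.sum_congr rfl fun j _ => ?_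
        rw [map_mul, MvPolynomial.eval_C, MvPolynomial.eval_X, mul_comm]
      rw [h1, h2]
      show Phi φ E₀ d α p q (fun l => ((x.1 l : P') : K)) D = _
      unfold Phi
      rw [mul_div_assoc]
    · -- no common zero
      have htE : IsTranscendenceBasis k (algebraMap K (AlgebraicClosure K) ∘ t) :=
        ht.algebraMap_comp
      obtain ⟨D, hD⟩ := exists_der (algebraMap K (AlgebraicClosure K) ∘ t) htE lam
      have hD' : ∀ j, D (algebraMap K (AlgebraicClosure K) (t j)) = lam j := hD
      obtain ⟨j₀, hj₀⟩ := Function.ne_iff.1 hlam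
      obtain ⟨x, hx1, hx2, hx3⟩ := hN₀ k K (AlgebraicClosure K) p q hp hq hpq P' hP' hsur
        ((le_max_left _ _).trans hcard') halg' D ⟨t j₀, by rw [hD']; exact hj₀⟩
      let xι : ι := ⟨fun l => ⟨x l, hx2 l⟩, fun l m h => hx1 (congrArg Subtype.val h)⟩
      refine ⟨xι, ?_⟩
      show MvPolynomial.aeval lam (wro φ (fun l => MvPolynomial.C (x l)) (Y xι) ^ e1 *
        MvPolynomial.C (cc xι)) ≠ 0
      rw [map_mul, map_pow, MvPolynomial.aeval_C]
      refine mul_ne_zero (pow_ne_zero _ ?_) ?_
      · have h1 := map_wro ((MvPolynomial.aeval lam :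
          MvPolynomial (Fin w) K →ₐ[K] AlgebraicClosure K) :
          MvPolynomial (Fin w) K →+* AlgebraicClosure K) φ (fun l => MvPolynomial.C (x l)) (Y xι)
        have h2 : (fun l => ((MvPolynomial.aeval lam :
          MvPolynomial (Fin w) K →ₐ[K] AlgebraicClosure K) :
          MvPolynomial (Fin w) K →+* AlgebraicClosure K) (MvPolynomial.C (x l))) =
            fun l => algebraMap K (AlgebraicClosure K) (x l) := by
          funext l
          exact MvPolynomial.aeval_C _ _
        have h3 : (fun l => ((MvPolynomial.aeval lam :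
          MvPolynomial (Fin w) K →ₐ[K] AlgebraicClosure K) :
          MvPolynomial (Fin w) K →+* AlgebraicClosure K) (Y xι l)) =
            fun l => D (algebraMap K (AlgebraicClosure K) (x l)) := by
          funext l
          rw [der_expand ht hδ D (x l)]
          show MvPolynomial.aeval lam (∑ j, MvPolynomial.C (δ j (x l)) * MvPolynomial.X j) = _
          rw [map_sum]
          refine Finset.sum_congr rfl fun j _ => ?_
          rw [map_mul, MvPolynomial.aeval_C, MvPolynomial.aeval_X, hD', mul_comm]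
        rw [h2, h3] at h1
        intro h0
        apply hx3
        rw [← h1]
        exact h0
      · rw [map_ne_zero_iff _ (algebraMap K (AlgebraicClosure K)).injective]
        have hg : ∀ (g : K → K → K), (∀ z ∈ P', ∀ z' ∈ P', z ≠ z' → g z z' ≠ 0) →
            pprod g x ≠ 0 := by
          intro g hg
          unfold pprod
          refine Finset.prod_ne_zero_iff.2 fun l _ => Finset.prod_ne_zero_iff.2 fun m hm => ?_
          exact hg _ (hx2 l) _ (hx2 m) fun h => (Finset.ne_of_mem_erase hm) (hx1 h).symm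
        refine div_ne_zero (pow_ne_zero _ (hg _ ?_)) (pow_ne_zero _ (hg _ ?_))
        · intro z _ z' _ hzz
          unfold gfn
          refine div_ne_zero (mul_ne_zero (pow_ne_zero _ (sub_ne_zero.2 hzz)) (pow_ne_zero _ ?_))
            (pow_ne_zero _ (mul_ne_zero (hα z) (hα z')))
          exact Pool.Agent.W277.UH.res_ne d p q hp hq (by omega) hpq
        · intro z _ z' _ hzz
          exact sub_ne_zero.2 hzz

end Pool.Agent.Q92.GT
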